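import Pool.Agent.Mg.F55cbcc.G805138

open Pool.Agent.MP_55cbcc_co

theorem Pool.Agent.Results.MP_55cbcc_co.InfiniteAspects.result :
    ∃ (T : Set ℂ) (tiling : Set (Set ℂ)) (m : ℕ) (A : Fin m → Set ℂ) (σ : Set ℂ → ℂ ≃ᵢ ℂ)
      (curves : Set (Set ℂ)),
      tiling.Countable ∧
      (∀ S ∈ tiling, Nonempty (S ≃ₜ Metric.closedBall (0 : ℂ) 1)) ∧
      ⋃₀ tiling = Set.univ ∧
      (∀ S ∈ tiling, ∀ S' ∈ tiling, S ≠ S' → Disjoint (interior S) (interior S')) ∧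
      (∀ S ∈ tiling, σ S '' T = S) ∧
      0 < m ∧
      (∀ i, A i ⊆ T ∧ Nonempty (A i ≃ₜ Set.Icc (0 : ℝ) 1)) ∧
      curves.Finite ∧
      (∀ C ∈ curves, Nonempty (C ≃ₜ ℝ) ∧ IsClosed C ∧ ¬ Bornology.IsBounded C) ∧
      (∀ C ∈ curves, ∀ C' ∈ curves, C ≠ C' → Disjoint C C') ∧
      ⋃ S ∈ tiling, σ S '' (⋃ i, A i) = ⋃₀ curves ∧
      ((fun S => {S' ∈ tiling | ∃ v : ℂ, S' = (fun z => z + v) '' S}) '' tiling).Infinite := by
  obtain ⟨σ, hσ⟩ := exists_sigma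
  refine ⟨T0, tiles, 2, arcs, σ, lines, tiles_countable, tiles_disk, tiles_cover, tiles_disjoint,
    ?_, by norm_num, fun i => ⟨arcs_sub i, arcs_homeo i⟩, lines_finite, lines_curve,
    fun C hC C' hC' h => lines_disjoint hC hC' h, union_arcs hσ, aspects_infinite⟩
  rintro _ ⟨s, hs, rfl⟩
  rw [hσ s hs]
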